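import Pool.Agent.X265.Wr.Mag

/-!
# The groups `F / [R, R]`

`EmbedsOligomorphic H` (from `TypeAOligomorphic.lean`) is the conclusion of the question: `H` embeds in
a finitely presented group which acts faithfully on `ℕ` with finitely many orbits on `k`-tuples for all
`k` and with finitely generated pointwise stabilizers of finite sets.

`FiniteBase Q` says that `Q` is a subgroup of a finitely presented group `G` with a faithful action of
type (A) on a set (finitely many orbits on pairs, finitely generated point stabilizers) such that some
finite set of points has trivial pointwise stabilizer in `Q`.

Let `F` be the free product of a free group of finite rank and of finitely many groups `A i`, and let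
`R` be a normal subgroup of `F` which meets every `A i` trivially, such that `Q = F / R` has a finite
base and is not a torsion group. Then `F / [R, R]` satisfies the conclusion of the question. In
particular this is so for `F` free of finite rank and every such quotient `Q`, for example for the free
metabelian groups of finite rank at least `1` (`Q` free abelian; these have a finite base from the action
of Houghton's group `H₃`, which is not used here).

Outline of the proof. The Magnus embedding for free products (`X265.Ver.Emb`) maps `F / [R, R]` to the
wreath product `ℤ ^ m ≀ Q`, where `m` is the number of the free generators and of the groups `A i`; it is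
injective since `R` is a retract of the free group on the edges of the Cayley graph. By the
theorem on wreath products (`X265.Wr`) the group `ℤ ^ m ≀ Q` embeds in a finitely presented group with an
action of type (A).
-/

set_option autoImplicit false

namespace Pool.Agent.Results.MP_24fec0_al.MagnusQuotients

open Pool.Agent.X265.Wr Pool.Agent.X265.Ver Pool.Agent.Results.MP_24fec0_al.TypeAOligomorphic

/-- Let `F = FrP X A` be the free product of the free group on the finite set `X` and the finitely many
groups `A i`, `R` a normal subgroup of `F` with `R ∩ A i = 1` for all `i` such that `F / R` has a finite
base and contains an element `q` of infinite order. Then `F / [R, R]` embeds in a finitely presented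
oligomorphic group with finitely generated stabilizers of finite sets. -/
theorem result (X I : Type) [Finite X] [Finite I] (A : I → Type) [∀ i, Group (A i)]
    (R : Subgroup (FrP X A)) [R.Normal] (hA : ∀ i (a : A i), ia i a ∈ R → a = 1)
    (hQ : FiniteBase (FrP X A ⧸ R)) (q : FrP X A ⧸ R) (hq : ∀ n : ℕ, 0 < n → q ^ n ≠ 1) :
    EmbedsOligomorphic (FrP X A ⧸ (⁅R, R⁆ : Subgroup (FrP X A))) :=
  three_imp_two _ (one_imp_three _ (embeds_magnus R hA hQ q hq))

end Pool.Agent.Results.MP_24fec0_al.MagnusQuotients
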