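import Pool.Agent.X265.Wr.Mag

/-!
# Closure properties of the class of groups for which the question has a positive answer

`EmbedsOligomorphic H` (from `TypeAOligomorphic.lean`) is the conclusion of the question: `H` embeds in
a finitely presented group which acts faithfully on `ℕ` with finitely many orbits on `k`-tuples for all
`k` and with finitely generated pointwise stabilizers of finite sets. The class of these groups is
closed under

* direct products and overgroups of finite index,
* restricted permutational wreath products `H₁ ≀_Y H₂ = (⊕_Y H₁) ⋊ H₂`, where `H₂` is a subgroup of a
  finitely presented group `G` with a faithful action of type (A) on a set `X` (finitely many orbits on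
  pairs, finitely generated point stabilizers) and `Y` is an orbit of `G` in `X`,
* restricted standard wreath products `H₁ ≀ H₂`, if `H₂` has a finite base: `H₂` is a subgroup of a
  finitely presented group `G` with a faithful action of type (A) such that some finite set of points
  has trivial pointwise stabilizer in `H₂`.

The class of groups with a finite base contains the finite groups and is closed under subgroups, direct
products and overgroups of finite index. (All finitely generated free abelian groups and free groups
have a finite base, from the actions of Houghton's group `H₃` and of Thompson's group `T`. This is not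
used here.)

Outline of the proof. Let `A` and `G` be finitely presented groups with actions of type (A) on `X₁` and
`X`. The wreath product `W = A ≀_Y G` is the quotient of `A * G` by finitely many relators: the
commutators of generators of `A` and of the stabilizer of the base point `y₀`, and the commutators of
generators of `A` and of `d A d⁻¹`, for representatives `d y₀` of the orbits of this stabilizer on `Y`.
It acts on `(X₁ × Y) ⊔ X`. This action is faithful with finitely many orbits on pairs; the stabilizers
are generated by the stabilizers in `A` and `G` and by finitely many copies of `A`. For the standard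
wreath product the finite set of points is replaced by one point of a power of `X`, on which a power of
`G` acts. Overgroups of finite index are in wreath products with finite symmetric groups.
-/

set_option autoImplicit false

namespace Pool.Agent.Results.MP_24fec0_al.WreathProducts

open Pool.Agent.X265.Wr Pool.Agent.Results.MP_24fec0_al.TypeAOligomorphic

theorem iff_typeA (H : Type) [Group H] : EmbedsOligomorphic H ↔ EmbedsTypeA H :=
  ⟨two_imp_one H, fun h => three_imp_two H (one_imp_three H h)⟩

/-- (1) direct products; (2) overgroups of finite index; (3) permutational wreath products
`(⊕_Y H₁) ⋊ H₂`, `Y` the orbit of a point `y` in a set with an action of type (A) of a finitely presented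
group `G` which contains `H₂`; (4) restricted standard wreath products `H₁ ≀ H₂`, if `H₂` has a finite
base; (5) infinite groups with a finite base satisfy the conclusion of the question; (6)-(9) finite groups
have a finite base, and this passes to subgroups, direct products and overgroups of finite index. -/
theorem result :
    (∀ (H K : Type) [Group H] [Group K], EmbedsOligomorphic H → EmbedsOligomorphic K →
      EmbedsOligomorphic (H × K)) ∧
    (∀ (K : Type) [Group K] (H : Subgroup K) [H.FiniteIndex], EmbedsOligomorphic H →
      EmbedsOligomorphic K) ∧
    (∀ (H₁ H₂ G X : Type) [Group H₁] [Group H₂] [Group G] [Group.IsFinitelyPresented G]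
      (r : G →* Equiv.Perm X) (φ : H₂ →* G) (y : X), TA r → Function.Injective φ →
      EmbedsOligomorphic H₁ → EmbedsOligomorphic (PW H₁ ((rO r y).comp φ))) ∧
    (∀ (H₁ H₂ : Type) [Group H₁] [Group H₂], EmbedsOligomorphic H₁ → FiniteBase H₂ →
      EmbedsOligomorphic (RW H₁ H₂)) ∧
    (∀ (H : Type) [Group H] [Infinite H], FiniteBase H → EmbedsOligomorphic H) ∧
    (∀ (H : Type) [Group H] [Finite H], FiniteBase H) ∧
    (∀ (K : Type) [Group K] (H : Subgroup K), FiniteBase K → FiniteBase H) ∧
    (∀ (H K : Type) [Group H] [Group K], FiniteBase H → FiniteBase K → FiniteBase (H × K)) ∧
    (∀ (K : Type) [Group K] (H : Subgroup K) [H.FiniteIndex], FiniteBase H → FiniteBase K) := by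
  refine ⟨?_, ?_, ?_, ?_, ?_, ?_, ?_, ?_, ?_⟩
  · intro H K _ _ h1 h2
    rw [iff_typeA] at h1 h2 ⊢
    exact embeds_prod h1 h2
  · intro K _ H _ h
    rw [iff_typeA] at h ⊢
    exact embeds_ind H h
  · intro H₁ H₂ G X _ _ _ _ r φ y hr hφ h
    rw [iff_typeA] at h ⊢
    exact embeds_PW h hr φ hφ y
  · intro H₁ H₂ _ _ h1 h2
    rw [iff_typeA] at h1 ⊢
    exact embeds_RW h1 h2
  · intro H _ _ h
    rw [iff_typeA]
    exact base_embeds h
  · intro H _ _
    exact base_finite H
  · intro K _ H h
    exact base_mono H.subtype H.subtype_injective h
  · intro H K _ _ h1 h2
    exact base_prod h1 h2
  · intro K _ H _ h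
    exact base_ind H h

end Pool.Agent.Results.MP_24fec0_al.WreathProducts
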